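import Pool.Agent.W792.WA.Stm6

set_option autoImplicit false

namespace Pool.Agent.W333.WA.WB

open MeasureTheory Filter AddCircle

/-- Bessel for a bounded continuous function -/
theorem bessel (g : C(UnitAddCircle, ℂ)) (B : ℝ) (hg : ∀ t, ‖g t‖ ≤ B) (F : Finset ℤ) :
    ∑ n ∈ F, ‖fourierCoeff g n‖ ^ 2 ≤ B ^ 2 := by
  have hB : 0 ≤ B := (norm_nonneg _).trans (hg 0)
  have h1 := hasSum_sq_fourierCoeff
    (ContinuousMap.toLp (E := ℂ) 2 (haarAddCircle : Measure UnitAddCircle) ℂ g)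
  have h2 := sum_le_hasSum F (fun _ _ => by positivity) h1
  have h2' : ∑ n ∈ F, ‖fourierCoeff g n‖ ^ 2 = ∑ n ∈ F, ‖fourierCoeff
      (ContinuousMap.toLp (E := ℂ) 2 (haarAddCircle : Measure UnitAddCircle) ℂ g) n‖ ^ 2 := by
    refine Finset.sum_congr rfl fun n _ => ?_
    rw [fourierCoeff_toLp]
  rw [h2']
  refine h2.trans ?_
  have h3 : ∀ᵐ t ∂(haarAddCircle : Measure UnitAddCircle),
      ‖(ContinuousMap.toLp (E := ℂ) 2 (haarAddCircle : Measure UnitAddCircle) ℂ g) t‖ ^ 2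
        ≤ B ^ 2 := by
    filter_upwards [ContinuousMap.coeFn_toLp (E := ℂ) (p := 2) (𝕜 := ℂ)
      (haarAddCircle : Measure UnitAddCircle) g] with t ht
    rw [ht]
    exact pow_le_pow_left₀ (norm_nonneg _) (hg t) 2
  have h4 : ∫ t : UnitAddCircle, ‖(ContinuousMap.toLp (E := ℂ) 2
      (haarAddCircle : Measure UnitAddCircle) ℂ g) t‖ ^ 2 ∂haarAddCircle ≤
      ∫ _t : UnitAddCircle, B ^ 2 ∂haarAddCircle := by
    apply integral_mono_of_nonneg
    · exact Eventually.of_forall fun _ => by positivity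
    · exact integrable_const _
    · exact h3
  refine h4.trans (le_of_eq ?_)
  simp

/-- Fourier coefficients of a translate -/
theorem coeff_shift (f : C(UnitAddCircle, ℂ)) (s : UnitAddCircle) (n : ℤ) :
    fourierCoeff (fun t => f (t + s)) n = fourier n s * fourierCoeff f n := by
  unfold fourierCoeff
  have h1 : ∀ t : UnitAddCircle, fourier (-n) t • f (t + s) =
      fourier n s * (fourier (-n) (t + s) • f (t + s)) := by
    intro t
    have e1 : (fourier (-n) (t + s) : ℂ) = fourier (-n) t * fourier (-n) s := by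
      simp only [fourier_apply, smul_add, toCircle_add, Circle.coe_mul]
    have e2 : (fourier n s : ℂ) * fourier (-n) s = 1 := by
      rw [← fourier_add, add_neg_cancel, fourier_zero]
    rw [e1]
    simp only [smul_eq_mul]
    calc (fourier (-n) t : ℂ) * f (t + s) = ((fourier n s : ℂ) * fourier (-n) s) *
          (fourier (-n) t * f (t + s)) := by rw [e2, one_mul]
      _ = _ := by ring
  simp_rw [h1]
  rw [integral_const_mul]
  congr 1
  exact integral_add_right_eq_self (fun t : UnitAddCircle => fourier (-n) t • f t) s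

theorem coeff_diff (f : C(UnitAddCircle, ℂ)) (s : UnitAddCircle) (n : ℤ) :
    fourierCoeff (fun t => f (t + s) - f t) n = (fourier n s - 1) * fourierCoeff f n := by
  have hc : Continuous (fun t => f (t + s)) := by fun_prop
  have i1 : Integrable (fun t : UnitAddCircle => fourier (-n) t • f (t + s)) haarAddCircle := by
    apply Continuous.integrable_of_hasCompactSupport
    · fun_prop
    · exact HasCompactSupport.of_compactSpace _
  have i2 : Integrable (fun t : UnitAddCircle => fourier (-n) t • f t) haarAddCircle := by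
    apply Continuous.integrable_of_hasCompactSupport
    · fun_prop
    · exact HasCompactSupport.of_compactSpace _
  rw [sub_mul, one_mul, ← coeff_shift]
  unfold fourierCoeff
  rw [← integral_sub i1 i2]
  simp_rw [smul_sub]

/-- lower bound for the multiplier -/
theorem mult_low (m : ℕ) (n : ℤ) (h1 : 2 ^ m ≤ n.natAbs) (h2 : n.natAbs < 2 ^ (m + 1)) :
    2 ≤ ‖(fourier n (((1 / 2 : ℝ) ^ (m + 2) : ℝ) : UnitAddCircle) : ℂ) - 1‖ ^ 2 := by
  have hpi := Real.pi_pos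
  set x : ℝ := n * (1 / 2 : ℝ) ^ (m + 2) with hx
  have e1 : (fourier n (((1 / 2 : ℝ) ^ (m + 2) : ℝ) : UnitAddCircle) : ℂ) =
      Complex.exp ((2 * Real.pi * x : ℝ) * Complex.I) := by
    rw [fourier_coe_apply]
    congr 1
    rw [hx]
    push_cast
    ring
  have habs : |x| = (n.natAbs : ℝ) * (1 / 2 : ℝ) ^ (m + 2) := by
    rw [hx, abs_mul, Nat.cast_natAbs, Int.cast_abs, abs_of_pos (by positivity : (0:ℝ) < (1/2)^(m+2))]
  have h1' : ((2:ℝ) ^ m) ≤ (n.natAbs : ℝ) := by exact_mod_cast h1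
  have h2' : (n.natAbs : ℝ) ≤ (2:ℝ) ^ (m + 1) := by exact_mod_cast h2.le
  have e2 : (2:ℝ) ^ m * (1 / 2 : ℝ) ^ (m + 2) = 1 / 4 := by
    rw [pow_add, ← mul_assoc, ← mul_pow]
    norm_num
  have e3 : (2:ℝ) ^ (m + 1) * (1 / 2 : ℝ) ^ (m + 2) = 1 / 2 := by
    rw [pow_succ, mul_assoc, mul_comm (2:ℝ) ((1/2)^(m+2)), ← mul_assoc, e2]
    norm_num
  have l1 : 1 / 4 ≤ |x| := by
    have := mul_le_mul_of_nonneg_right h1' (by positivity : (0:ℝ) ≤ (1 / 2 : ℝ) ^ (m + 2))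
    rw [habs]
    linarith
  have l2 : |x| ≤ 1 / 2 := by
    have := mul_le_mul_of_nonneg_right h2' (by positivity : (0:ℝ) ≤ (1 / 2 : ℝ) ^ (m + 2))
    rw [habs]
    linarith
  have hcos : Real.cos (2 * Real.pi * x) ≤ 0 := by
    rw [← Real.cos_abs, abs_mul, abs_of_pos (by positivity : (0:ℝ) < 2 * Real.pi)]
    apply Real.cos_nonpos_of_pi_div_two_le_of_le
    · nlinarith
    · nlinarith
  have e4 : ‖(fourier n (((1 / 2 : ℝ) ^ (m + 2) : ℝ) : UnitAddCircle) : ℂ) - 1‖ ^ 2 =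
      2 - 2 * Real.cos (2 * Real.pi * x) := by
    rw [e1, Complex.sq_norm, Complex.normSq_apply]
    have a1 : (Complex.exp ((2 * Real.pi * x : ℝ) * Complex.I) - 1).re =
        Real.cos (2 * Real.pi * x) - 1 := by
      rw [Complex.sub_re, Complex.exp_ofReal_mul_I_re, Complex.one_re]
    have a2 : (Complex.exp ((2 * Real.pi * x : ℝ) * Complex.I) - 1).im =
        Real.sin (2 * Real.pi * x) := by
      rw [Complex.sub_im, Complex.exp_ofReal_mul_I_im, Complex.one_im, sub_zero]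
    rw [a1, a2]
    nlinarith [Real.sin_sq_add_cos_sq (2 * Real.pi * x)]
  rw [e4]
  linarith

theorem pow_low (m : ℕ) : ((((1 / 2 : ℝ) ^ (m + 2)) ^ (2 / 3 : ℝ)) ^ 2) ≤ (2 / 5 : ℝ) ^ m := by
  have h0 : (0:ℝ) ≤ (1/2 : ℝ) := by norm_num
  have e1 : ((((1 / 2 : ℝ) ^ (m + 2)) ^ (2 / 3 : ℝ)) ^ 2) = ((1 / 2 : ℝ) ^ (4 / 3 : ℝ)) ^ (m + 2) := by
    rw [← Real.rpow_natCast ((((1 / 2 : ℝ) ^ (m + 2)) ^ (2 / 3 : ℝ))) 2,
      ← Real.rpow_natCast (1/2 : ℝ) (m+2), ← Real.rpow_mul h0, ← Real.rpow_mul h0,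
      ← Real.rpow_natCast _ (m+2), ← Real.rpow_mul h0]
    congr 1
    push_cast
    ring
  have e2 : (1 / 2 : ℝ) ^ (4 / 3 : ℝ) ≤ 2 / 5 := by
    have h3 : ((1 / 2 : ℝ) ^ (4 / 3 : ℝ)) ^ 3 ≤ (2 / 5 : ℝ) ^ 3 := by
      rw [← Real.rpow_natCast, ← Real.rpow_mul h0]
      norm_num
    exact le_of_pow_le_pow_left₀ (by norm_num) (by norm_num) h3
  rw [e1]
  have h4 : 0 ≤ (1 / 2 : ℝ) ^ (4 / 3 : ℝ) := by positivity
  calc ((1 / 2 : ℝ) ^ (4 / 3 : ℝ)) ^ (m + 2) ≤ (2 / 5 : ℝ) ^ (m + 2) :=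
        pow_le_pow_left₀ h4 e2 _
    _ ≤ (2 / 5 : ℝ) ^ m := pow_le_pow_of_le_one (by norm_num) (by norm_num) (by omega)

/-- one dyadic block -/
theorem block (f : C(UnitAddCircle, ℂ)) (C : ℝ) (hC : 0 ≤ C)
    (hf : ∀ (s : ℝ) (t : UnitAddCircle), ‖f (t + (s : UnitAddCircle)) - f t‖ ≤
      C * |s| ^ (2 / 3 : ℝ)) (m : ℕ) (F : Finset ℤ)
    (hF : ∀ n ∈ F, 2 ^ m ≤ n.natAbs ∧ n.natAbs < 2 ^ (m + 1)) :
    ∑ n ∈ F, ‖fourierCoeff f n‖ ≤ C ^ 2 * (9 / 10 : ℝ) ^ m + 4 * (8 / 9 : ℝ) ^ m := by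
  set s : ℝ := (1 / 2 : ℝ) ^ (m + 2) with hs
  have hspos : 0 < s := by positivity
  have hcont : Continuous (fun t : UnitAddCircle => f (t + (s : UnitAddCircle)) - f t) := by
    fun_prop
  have h1 := bessel ⟨fun t : UnitAddCircle => f (t + (s : UnitAddCircle)) - f t, hcont⟩
    (C * |s| ^ (2 / 3 : ℝ)) (fun t => hf s t) F
  simp only [ContinuousMap.coe_mk] at h1
  simp_rw [coeff_diff] at h1
  rw [abs_of_pos hspos, mul_pow] at h1
  have h2 : ∑ n ∈ F, 2 * ‖fourierCoeff f n‖ ^ 2 ≤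
      ∑ n ∈ F, ‖((fourier n (s : UnitAddCircle) : ℂ) - 1) * fourierCoeff f n‖ ^ 2 := by
    refine Finset.sum_le_sum fun n hn => ?_
    rw [norm_mul, mul_pow]
    have := mult_low m n (hF n hn).1 (hF n hn).2
    exact mul_le_mul_of_nonneg_right this (by positivity)
  have h3 : ∑ n ∈ F, ‖fourierCoeff f n‖ ^ 2 ≤ C ^ 2 * (2 / 5 : ℝ) ^ m := by
    rw [← Finset.mul_sum] at h2
    have h4 := pow_low m
    have h5 : C ^ 2 * (s ^ (2 / 3 : ℝ)) ^ 2 ≤ C ^ 2 * (2 / 5 : ℝ) ^ m :=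
      mul_le_mul_of_nonneg_left h4 (by positivity)
    have h6 : 0 ≤ ∑ n ∈ F, ‖fourierCoeff f n‖ ^ 2 := Finset.sum_nonneg fun _ _ => by positivity
    linarith
  have hcard : (F.card : ℝ) ≤ 4 * 2 ^ m := by
    have hsub : F ⊆ Finset.Ioo (-(2 ^ (m + 1) : ℤ)) (2 ^ (m + 1)) := by
      intro n hn
      have := (hF n hn).2
      rw [Finset.mem_Ioo]
      have h7 : (n.natAbs : ℤ) < 2 ^ (m + 1) := by exact_mod_cast this
      rw [Int.natCast_natAbs] at h7
      exact abs_lt.mp h7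
    have h8 := Finset.card_le_card hsub
    rw [Int.card_Ioo] at h8
    have h9 : ((2:ℤ) ^ (m + 1) - -(2 ^ (m + 1)) - 1).toNat ≤ 4 * 2 ^ m := by
      rw [Int.toNat_le]
      push_cast
      rw [pow_succ]
      linarith
    exact_mod_cast h8.trans h9
  set w : ℝ := (9 / 4 : ℝ) ^ m with hw
  have hwpos : 0 < w := by positivity
  have h10 : ∀ n ∈ F, ‖fourierCoeff f n‖ ≤ w * ‖fourierCoeff f n‖ ^ 2 + w⁻¹ := by
    intro n _
    set y := ‖fourierCoeff f n‖ with hy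
    have hy0 : 0 ≤ y := norm_nonneg _
    have h11 : 0 ≤ (w * y - 1) ^ 2 := sq_nonneg _
    have h12 : w * y ≤ w * (w * y ^ 2 + w⁻¹) := by
      have : w * w⁻¹ = 1 := mul_inv_cancel₀ hwpos.ne'
      nlinarith [mul_nonneg hwpos.le hy0]
    exact le_of_mul_le_mul_left h12 hwpos
  calc ∑ n ∈ F, ‖fourierCoeff f n‖ ≤ ∑ n ∈ F, (w * ‖fourierCoeff f n‖ ^ 2 + w⁻¹) :=
        Finset.sum_le_sum h10
    _ = w * (∑ n ∈ F, ‖fourierCoeff f n‖ ^ 2) + F.card * w⁻¹ := by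
        rw [Finset.sum_add_distrib, ← Finset.mul_sum, Finset.sum_const, nsmul_eq_mul]
    _ ≤ w * (C ^ 2 * (2 / 5 : ℝ) ^ m) + (4 * 2 ^ m) * w⁻¹ := by gcongr
    _ = C ^ 2 * (9 / 10 : ℝ) ^ m + 4 * (8 / 9 : ℝ) ^ m := by
        have e1 : (9 / 10 : ℝ) ^ m = w * (2 / 5 : ℝ) ^ m := by
          rw [hw, ← mul_pow]; norm_num
        have e2 : (8 / 9 : ℝ) ^ m = 2 ^ m * w⁻¹ := by
          rw [hw, ← inv_pow, ← mul_pow]; norm_num
        rw [e1, e2]
        ring

theorem summ (f : C(UnitAddCircle, ℂ)) (C : ℝ) (hC : 0 ≤ C)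
    (hf : ∀ (s : ℝ) (t : UnitAddCircle), ‖f (t + (s : UnitAddCircle)) - f t‖ ≤
      C * |s| ^ (2 / 3 : ℝ)) : Summable fun n : ℤ => ‖fourierCoeff f n‖ := by
  set G : ℕ → ℝ := fun m => C ^ 2 * (9 / 10 : ℝ) ^ m + 4 * (8 / 9 : ℝ) ^ m with hG
  have hGs : Summable G := by
    apply Summable.add
    · exact (summable_geometric_of_lt_one (by norm_num) (by norm_num)).mul_left _
    · exact (summable_geometric_of_lt_one (by norm_num) (by norm_num)).mul_left _
  have hG0 : ∀ m, 0 ≤ G m := fun m => by positivity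
  refine summable_of_sum_le (c := ‖fourierCoeff f 0‖ + ∑' m, G m) (fun _ => norm_nonneg _) ?_
  intro u
  have h1 : ∑ n ∈ u, ‖fourierCoeff f n‖ ≤
      ‖fourierCoeff f 0‖ + ∑ n ∈ u.erase 0, ‖fourierCoeff f n‖ := by
    by_cases h0 : (0:ℤ) ∈ u
    · rw [Finset.add_sum_erase u (fun n => ‖fourierCoeff f n‖) h0]
    · rw [Finset.erase_eq_of_notMem h0]
      have := norm_nonneg (fourierCoeff f 0)
      linarith
  refine h1.trans ?_
  gcongr
  set N : ℕ := (u.erase 0).sup (fun n => Nat.log 2 n.natAbs) + 1 with hN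
  have hmaps : ∀ n ∈ u.erase 0, Nat.log 2 n.natAbs ∈ Finset.range N := by
    intro n hn
    rw [Finset.mem_range, hN]
    exact Nat.lt_succ_of_le (Finset.le_sup (f := fun n : ℤ => Nat.log 2 n.natAbs) hn)
  rw [← Finset.sum_fiberwise_of_maps_to hmaps]
  have h2 : ∑ m ∈ Finset.range N,
      ∑ n ∈ (u.erase 0).filter (fun n => Nat.log 2 n.natAbs = m), ‖fourierCoeff f n‖ ≤
      ∑ m ∈ Finset.range N, G m := by
    refine Finset.sum_le_sum fun m _ => ?_
    apply block f C hC hf m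
    intro n hn
    rw [Finset.mem_filter, Finset.mem_erase] at hn
    obtain ⟨⟨hn0, _⟩, hlog⟩ := hn
    have hn1 : n.natAbs ≠ 0 := Int.natAbs_ne_zero.mpr hn0
    constructor
    · rw [← hlog]; exact Nat.pow_log_le_self 2 hn1
    · rw [← hlog]; exact Nat.lt_pow_succ_log_self (by norm_num) _
  exact h2.trans (hGs.sum_le_tsum _ fun m _ => hG0 m)

theorem core (ψ : C(UnitAddCircle, ℝ)) (h : ∃ C : ℝ, ∀ s t : ℝ,
    |ψ (s : UnitAddCircle) - ψ (t : UnitAddCircle)| ≤ C * |s - t| ^ (2 / 3 : ℝ)) :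
    Summable fun h : ℤ => ‖fourierCoeff (fun t : UnitAddCircle => ((ψ t : ℝ) : ℂ)) h‖ := by
  obtain ⟨C, hC⟩ := h
  have hC0 : 0 ≤ C := by
    have := hC 1 0
    have h1 : |(1:ℝ) - 0| ^ (2 / 3 : ℝ) = 1 := by norm_num
    rw [h1, mul_one] at this
    exact (abs_nonneg _).trans this
  have hcont : Continuous (fun t : UnitAddCircle => ((ψ t : ℝ) : ℂ)) := by fun_prop
  refine summ ⟨fun t : UnitAddCircle => ((ψ t : ℝ) : ℂ), hcont⟩ C hC0 ?_
  intro s t
  induction t using QuotientAddGroup.induction_on with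
  | H t =>
    have h1 := hC (t + s) t
    rw [add_sub_cancel_left] at h1
    simp only [ContinuousMap.coe_mk]
    rw [← Complex.ofReal_sub, Complex.norm_real, Real.norm_eq_abs]
    exact h1

theorem main : Pool.Agent.W792.WA.S_WB := fun ψ h => core ψ h

end Pool.Agent.W333.WA.WB
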